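import Pool.Agent.H474R2.PG.Final

set_option autoImplicit false

/-!
# The error term in the Bateman-Horn (Schinzel quantitative) conjecture for one polynomial

From the long strings of composite values of an irreducible polynomial (`Pool.Agent.H474R2.PG.Final`); the passage to
the error term follows `Pool.Agent.Y890.CF.Omega` (there for `x^2+x+A`).
-/

namespace Pool.Agent.Q26.BH

open Polynomial Finset MeasureTheory Filter

/-- the number of `1 ≤ n ≤ N` with `|f(n)|` prime -/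
def P (f : ℤ[X]) (N : ℕ) : ℕ := ((Icc 1 N).filter (fun n : ℕ => (f.eval (n : ℤ)).natAbs.Prime)).card

/-- the value of `f` at a real number -/
noncomputable def ev (f : ℤ[X]) (t : ℝ) : ℝ := (f.map (Int.castRingHom ℝ)).eval t

lemma ev_cont (f : ℤ[X]) : Continuous (ev f) := (f.map (Int.castRingHom ℝ)).continuous

lemma lead_map (f : ℤ[X]) : (f.map (Int.castRingHom ℝ)).leadingCoeff = f.leadingCoeff := by
  rw [leadingCoeff_map_of_injective (RingHom.injective_int _)]; simp

lemma ev_tendsto (f : ℤ[X]) (hd : 0 < f.natDegree) (hl : 0 < f.leadingCoeff) :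
    Tendsto (ev f) atTop atTop := by
  apply Polynomial.tendsto_atTop_of_leadingCoeff_nonneg
  · rw [degree_map_eq_of_injective (RingHom.injective_int _)]
    exact natDegree_pos_iff_degree_pos.1 hd
  · rw [lead_map]; exact_mod_cast hl.le

lemma ev_le (f : ℤ[X]) (hd : 0 < f.natDegree) : ∀ᶠ t : ℝ in atTop, ev f t ≤ t ^ (f.natDegree + 1) := by
  have hdeg : (X ^ (f.natDegree + 1) - f.map (Int.castRingHom ℝ)).natDegree = f.natDegree + 1 := by
    rw [natDegree_sub_eq_left_of_natDegree_lt]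
    · simp
    · rw [natDegree_map_eq_of_injective (RingHom.injective_int _)]; simp
  have hlead : (X ^ (f.natDegree + 1) - f.map (Int.castRingHom ℝ)).leadingCoeff = 1 := by
    rw [leadingCoeff, hdeg, coeff_sub, coeff_X_pow_self, coeff_eq_zero_of_natDegree_lt, sub_zero]
    rw [natDegree_map_eq_of_injective (RingHom.injective_int _)]; omega
  have h : Tendsto (fun t : ℝ => (X ^ (f.natDegree + 1) - f.map (Int.castRingHom ℝ)).eval t) atTop atTop := by
    apply Polynomial.tendsto_atTop_of_leadingCoeff_nonneg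
    · rw [← natDegree_pos_iff_degree_pos, hdeg]; omega
    · rw [hlead]; norm_num
  filter_upwards [h.eventually_ge_atTop 0] with t ht
  rw [eval_sub, eval_pow, eval_X] at ht
  unfold ev
  linarith

/-- long intervals without prime values -/
theorem gap (f : ℤ[X]) (hf : Irreducible f) (hd : 0 < f.natDegree) (hl : 0 < f.leadingCoeff) :
    ∃ c : ℝ, 0 < c ∧ ∃ Y₀ : ℝ, ∀ Y : ℝ, Y₀ ≤ Y → ∀ M : ℕ, Y ≤ M →
    ∃ x : ℕ, M < x ∧ (x : ℝ) + c * Real.log Y * Real.log (Real.log Y) ≤ M + Y ∧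
      ∀ k : ℕ, (k : ℝ) ≤ c * Real.log Y * Real.log (Real.log Y) →
        ¬ (f.eval ((x + k : ℕ) : ℤ)).natAbs.Prime := by
  obtain ⟨c, hc, Y₀, h⟩ := Pool.Agent.H474R2.PG.composite_strings f hf hd hl
  refine ⟨c, hc, Y₀, fun Y hY M hM => ?_⟩
  obtain ⟨x, hx, hx2, hk⟩ := h Y hY M (by exact_mod_cast hM)
  lift x to ℕ using (by have := Int.natCast_nonneg M; omega)
  refine ⟨x, by exact_mod_cast hx, by exact_mod_cast hx2, fun k hk2 hp => ?_⟩
  obtain ⟨p, hp1, -, hp3, hp4⟩ := hk k hk2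
  have e : ((x : ℤ) + (k : ℤ)) = ((x + k : ℕ) : ℤ) := by push_cast; ring
  rw [e] at hp3 hp4
  have hnn : 0 ≤ f.eval ((x + k : ℕ) : ℤ) := by omega
  have h0 : (((f.eval ((x + k : ℕ) : ℤ)).natAbs : ℕ) : ℤ) = f.eval ((x + k : ℕ) : ℤ) := Int.natAbs_of_nonneg hnn
  rw [← h0] at hp3 hp4
  have h1 : p ∣ (f.eval ((x + k : ℕ) : ℤ)).natAbs := by exact_mod_cast hp3
  have h2 : p < (f.eval ((x + k : ℕ) : ℤ)).natAbs := by exact_mod_cast hp4
  rcases (Nat.dvd_prime hp).1 h1 with h3 | h3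
  · exact hp1.one_lt.ne' h3
  · omega

lemma P_eq_of_gap {f : ℤ[X]} {a b : ℕ} (hab : a ≤ b)
    (h : ∀ n : ℕ, a < n → n ≤ b → ¬ (f.eval (n : ℤ)).natAbs.Prime) : P f b = P f a := by
  unfold P
  congr 1
  ext n
  simp only [mem_filter, mem_Icc]
  constructor
  · rintro ⟨h1, h3⟩
    refine ⟨?_, h3⟩
    by_contra h4
    exact h n (by omega) (by omega) h3
  · rintro ⟨h1, h3⟩
    exact ⟨by omega, h3⟩

/-- **Lower bound for the error, arbitrary main term.** -/
theorem omega_gen (f : ℤ[X]) (hf : Irreducible f) (hd : 0 < f.natDegree) (hl : 0 < f.leadingCoeff) :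
    ∃ c : ℝ, 0 < c ∧ ∃ Y₀ : ℝ, ∀ (M : ℕ → ℝ) (κ Y : ℝ) (x : ℕ), 0 ≤ κ → Y₀ ≤ Y → Y ≤ x →
    (∀ a b : ℕ, x ≤ a → a ≤ b → (b : ℝ) ≤ x + Y → κ * (b - a) / Real.log x ≤ M b - M a) →
    ∃ N : ℕ, x ≤ N ∧ (N : ℝ) ≤ x + Y ∧
      c * κ * (Real.log Y / Real.log x) * Real.log (Real.log Y) ≤ |(P f N : ℝ) - M N| := by
  obtain ⟨c, hc, Y₀, h⟩ := gap f hf hd hl
  refine ⟨c / 2, by positivity, max Y₀ 3, fun M κ Y x hκ hY hYx hM => ?_⟩
  have hY3 : (3 : ℝ) ≤ Y := (le_max_right _ _).trans hY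
  obtain ⟨y, hy1, hy2, hy3⟩ := h Y ((le_max_left _ _).trans hY) x hYx
  have hlogY : 1 < Real.log Y := by
    rw [Real.lt_log_iff_exp_lt (by linarith)]
    linarith [Real.exp_one_lt_d9]
  have hllY : 0 < Real.log (Real.log Y) := Real.log_pos hlogY
  set H : ℝ := c * Real.log Y * Real.log (Real.log Y) with hH
  have hH0 : 0 < H := by positivity
  have hx3 : (3 : ℝ) ≤ x := hY3.trans hYx
  set K : ℕ := ⌊H⌋₊ with hK
  have hK1 : (K : ℝ) ≤ H := Nat.floor_le hH0.le
  have hK2 : H < K + 1 := Nat.lt_floor_add_one H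
  have hPab : P f (y + K) = P f (y - 1) := by
    apply P_eq_of_gap (by omega)
    intro n hn1 hn2
    have h1 : n = y + (n - y) := by omega
    rw [h1]
    apply hy3
    have h2 : n - y ≤ K := by omega
    have h3 : ((n - y : ℕ) : ℝ) ≤ K := by exact_mod_cast h2
    linarith
  have hya : ((y - 1 : ℕ) : ℝ) = y - 1 := by
    rw [Nat.cast_sub (by omega)]; simp
  have hyx : x ≤ y - 1 := by omega
  have hyb : ((y + K : ℕ) : ℝ) ≤ x + Y := by
    push_cast; linarith
  have hlx : 0 < Real.log x := Real.log_pos (by linarith)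
  have hinc := hM (y - 1) (y + K) hyx (by omega) hyb
  have hd' : H ≤ ((y + K : ℕ) : ℝ) - ((y - 1 : ℕ) : ℝ) := by
    rw [hya]; push_cast; linarith
  have hinc2 : κ * H / Real.log x ≤ M (y + K) - M (y - 1) := by
    refine le_trans ?_ hinc
    apply div_le_div_of_nonneg_right _ hlx.le
    exact mul_le_mul_of_nonneg_left hd' hκ
  have htar : c / 2 * κ * (Real.log Y / Real.log x) * Real.log (Real.log Y) = κ * H / Real.log x * (1 / 2) := by
    rw [hH]; field_simp
  have hnn : 0 ≤ κ * H / Real.log x := by positivity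
  by_cases hcase : κ * H / Real.log x * (1 / 2) ≤ |(P f (y + K) : ℝ) - M (y + K)|
  · refine ⟨y + K, by omega, hyb, ?_⟩
    rw [htar]; exact hcase
  · refine ⟨y - 1, by omega, ?_, ?_⟩
    · have : ((y - 1 : ℕ) : ℝ) ≤ ((y + K : ℕ) : ℝ) := by exact_mod_cast (by omega : y - 1 ≤ y + K)
      linarith
    rw [htar]
    push Not at hcase
    have h1 := neg_abs_le ((P f (y + K) : ℝ) - M (y + K))
    have h2 := le_abs_self ((P f (y - 1) : ℝ) - M (y - 1))
    rw [hPab] at hcase h1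
    linarith

lemma int_sub {f : ℤ[X]} {t₀ : ℝ} (ht₀ : 1 ≤ t₀) (h3 : ∀ t : ℝ, t₀ ≤ t → 3 ≤ ev f t)
    (hle : ∀ t : ℝ, t₀ ≤ t → ev f t ≤ t ^ (f.natDegree + 1)) {a b : ℝ} (ha : t₀ ≤ a) (hab : a ≤ b) (hb : 1 < b) :
    (b - a) / ((f.natDegree + 1) * Real.log b) ≤
      (∫ t in t₀..b, 1 / Real.log (ev f t)) - ∫ t in t₀..a, 1 / Real.log (ev f t) := by
  have hint : ∀ u v : ℝ, t₀ ≤ u → t₀ ≤ v → IntervalIntegrable (fun t : ℝ => 1 / Real.log (ev f t)) volume u v := by
    intro u v hu hv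
    apply ContinuousOn.intervalIntegrable
    intro t ht
    have ht2 : t₀ ≤ t := by
      rcases le_total u v with h | h
      · rw [Set.uIcc_of_le h] at ht; linarith [ht.1]
      · rw [Set.uIcc_of_ge h] at ht; linarith [ht.1]
    have hpos : 1 < ev f t := by linarith [h3 t ht2]
    have hl : 0 < Real.log (ev f t) := Real.log_pos hpos
    apply ContinuousAt.continuousWithinAt
    have h1 : ContinuousAt (fun t : ℝ => ev f t) t := (ev_cont f).continuousAt
    exact continuousAt_const.div (h1.log (by linarith)) hl.ne'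
  rw [intervalIntegral.integral_interval_sub_left (hint _ _ le_rfl (ha.trans hab)) (hint _ _ le_rfl ha)]
  have hlb : 0 < Real.log b := Real.log_pos hb
  have h1 : (b - a) / ((f.natDegree + 1) * Real.log b) = ∫ _t in a..b, 1 / ((f.natDegree + 1) * Real.log b) := by
    rw [intervalIntegral.integral_const, smul_eq_mul]; ring
  rw [h1]
  apply intervalIntegral.integral_mono_on hab (by simp) (hint _ _ ha (ha.trans hab))
  intro t ht
  have ht0 : t₀ ≤ t := ha.trans ht.1
  have hl : 0 < Real.log (ev f t) := Real.log_pos (by linarith [h3 t ht0])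
  apply one_div_le_one_div_of_le hl
  have h2 : Real.log (ev f t) ≤ Real.log (b ^ (f.natDegree + 1)) := by
    apply Real.log_le_log (by linarith [h3 t ht0])
    exact (hle t ht0).trans (pow_le_pow_left₀ (by linarith) ht.2 _)
  rw [Real.log_pow] at h2
  push_cast at h2
  exact h2

/-- **Lower bound for the error in the quantitative Hypothesis H, in short intervals.** -/
theorem omega (f : ℤ[X]) (hf : Irreducible f) (hd : 0 < f.natDegree) (hl : 0 < f.leadingCoeff) :
    ∃ t₀ : ℝ, (∀ t : ℝ, t₀ ≤ t → 3 ≤ ev f t) ∧ ∃ c : ℝ, 0 < c ∧ ∃ Y₀ : ℝ,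
      ∀ (C D Y : ℝ) (x : ℕ), 0 ≤ C → Y₀ ≤ Y → Y ≤ x →
      ∃ N : ℕ, x ≤ N ∧ (N : ℝ) ≤ x + Y ∧
        c * C * (Real.log Y / Real.log x) * Real.log (Real.log Y) ≤
          |(P f N : ℝ) - (C * (∫ t in t₀..(N : ℝ), 1 / Real.log (ev f t)) + D)| := by
  obtain ⟨t₁, ht₁⟩ := eventually_atTop.1 ((ev_tendsto f hd hl).eventually_ge_atTop 3)
  obtain ⟨t₂, ht₂⟩ := eventually_atTop.1 (ev_le f hd)
  set t₀ : ℝ := max (max t₁ t₂) 1 with ht₀
  have h1 : t₁ ≤ t₀ := (le_max_left _ _).trans (le_max_left _ _)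
  have h2 : t₂ ≤ t₀ := (le_max_right _ _).trans (le_max_left _ _)
  have h3 : 1 ≤ t₀ := le_max_right _ _
  refine ⟨t₀, fun t ht => ht₁ t (h1.trans ht), ?_⟩
  obtain ⟨c, hc, Y₀, h⟩ := omega_gen f hf hd hl
  set d : ℝ := f.natDegree + 1 with hdd
  have hd1 : 1 ≤ d := by rw [hdd]; have : (0 : ℝ) ≤ f.natDegree := Nat.cast_nonneg _; linarith
  refine ⟨c / (2 * d), by positivity, max (max Y₀ t₀) 3, fun C D Y x hC hY hYx => ?_⟩
  have hY0 : Y₀ ≤ Y := ((le_max_left _ _).trans (le_max_left _ _)).trans hY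
  have hYt : t₀ ≤ Y := ((le_max_right _ _).trans (le_max_left _ _)).trans hY
  have hY3 : (3 : ℝ) ≤ Y := (le_max_right _ _).trans hY
  have hx3 : (3 : ℝ) ≤ x := hY3.trans hYx
  have hlx : 0 < Real.log x := Real.log_pos (by linarith)
  obtain ⟨N, hN1, hN2, hN3⟩ := h (fun N => C * (∫ t in t₀..(N : ℝ), 1 / Real.log (ev f t)) + D)
    (C / (2 * d)) Y x (by positivity) hY0 hYx (by
      intro a b ha hab hb
      have ha' : (x : ℝ) ≤ a := by exact_mod_cast ha
      have hab' : (a : ℝ) ≤ b := by exact_mod_cast hab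
      have hb2 : (b : ℝ) ≤ 2 * x := by linarith
      have hb3 : (b : ℝ) ≤ (x : ℝ) ^ 2 := by nlinarith
      have hlb : Real.log b ≤ 2 * Real.log x := by
        have := Real.log_le_log (by linarith) hb3
        rw [Real.log_pow] at this
        exact_mod_cast this
      have hlb0 : 0 < Real.log b := Real.log_pos (by linarith)
      have key := int_sub h3 (fun t ht => ht₁ t (h1.trans ht)) (fun t ht => ht₂ t (h2.trans ht))
        (a := a) (b := b) (by linarith) hab' (by linarith)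
      rw [← hdd] at key
      have e : ((b : ℝ) - a) / (d * (2 * Real.log x)) ≤ ((b : ℝ) - a) / (d * Real.log b) := by
        apply div_le_div_of_nonneg_left (by linarith) (by positivity)
        exact mul_le_mul_of_nonneg_left hlb (by linarith)
      have e2 : C / (2 * d) * (b - a) / Real.log x = C * (((b : ℝ) - a) / (d * (2 * Real.log x))) := by
        field_simp
      rw [e2]
      have e3 := mul_le_mul_of_nonneg_left (e.trans key) hC
      linarith)
  refine ⟨N, hN1, hN2, ?_⟩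
  calc c / (2 * d) * C * (Real.log Y / Real.log x) * Real.log (Real.log Y)
      = c * (C / (2 * d)) * (Real.log Y / Real.log x) * Real.log (Real.log Y) := by ring
    _ ≤ _ := hN3

end Pool.Agent.Q26.BH
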