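import Pool.Agent.TH464.PO.Ext
import Pool.Agent.Y879.GL.GapZ

set_option autoImplicit false

/-!
# The Poisson law for systems of polynomials, in all intervals
-/

namespace Pool.Agent.Q26.BH

open Polynomial Finset Filter
open Pool.Agent.W123.RP Pool.Agent.H373R2.T7 Pool.Agent.W123.RU Pool.Agent.W123.RU.Poly
open Pool.Agent.TH464.PW Pool.Agent.TH464.PO

variable {ι : Type} [Fintype ι]

open Classical in
/-- **The Poisson law**, for systems of polynomials, in all intervals `(Z, Z + Y]`. -/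
theorem poisson_Z [Nonempty ι] (f : ι → ℤ[X]) (hf : Sys f) (hT : NoTr f) (θ : ℝ) (hθ : 0 < θ)
    (x0 ε : ℝ) (hε : 0 < ε) :
    ∃ r0 : ℕ, ∀ r : ℕ, r0 ≤ r → ∀ᶠ X : ℕ in atTop, ∀ Z Y : ℕ, (X : ℝ) ^ θ ≤ Y →
      ∀ T : ℕ, T * Vq (Q f) ⌊(X : ℝ) ^ (1 / (r : ℝ))⌋₊ ≤ x0 → ∀ A : Finset ℕ,
        |(((Ioc Z (Z + Y)).filter (fun n => Wc (Sf (Q f) ⌊(X : ℝ) ^ (1 / (r : ℝ))⌋₊) n T ∈ A)).card : ℝ) -
          Y * ∑ j ∈ A, Real.exp (-(T * Vq (Q f) ⌊(X : ℝ) ^ (1 / (r : ℝ))⌋₊)) *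
            (T * Vq (Q f) ⌊(X : ℝ) ^ (1 / (r : ℝ))⌋₊) ^ j / j.factorial| ≤ ε * Y := by
  obtain ⟨c, hc, hQ⟩ := exists_c f hf
  obtain ⟨K0, y0, T0, R0, η', κ, hη', hκ, hκ2, hlaw⟩ := gen_law c hc x0 ε hε
  obtain ⟨r0, h0⟩ := poly_sizes f hf hT θ hθ K0 y0 T0 R0 η' κ (max x0 1) hη' hκ (by positivity)
  refine ⟨max r0 2, ?_⟩
  intro r hr
  have hr2 : 2 ≤ r := (le_max_right _ _).trans hr
  filter_upwards [h0 r ((le_max_left _ _).trans hr), V_small f hf r hr2 κ hκ] with X hX hVκ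
  intro Z Y hXY T hTx A
  obtain ⟨a1, a2, a3⟩ := hX Y hXY _ rfl
  exact hlaw (Q f) Z Y _ hQ (fun p hp => Poly.adm f hf p hp) a1 a2 hVκ a3 T hTx A

end Pool.Agent.Q26.BH
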