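import Pool.Agent.Y879.PR.Full

set_option autoImplicit false

/-!
# The law after primes, for systems with a linear polynomial
-/

namespace Pool.Agent.Q26.BH

open Polynomial Finset Filter
open Pool.Agent.W123.RP Pool.Agent.H373R2.T7 Pool.Agent.W123.RU Pool.Agent.W123.RU.Poly
open Pool.Agent.TH464.PW Pool.Agent.TH464.PO Pool.Agent.Y879.GL Pool.Agent.Y879.PR

/-- the density is small when all primes not dividing `a` have at least one class -/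
lemma V_one (a : ℕ) (ha : a ≠ 0) : ∃ C : ℝ, 0 < C ∧ ∀ Q : ℕ → ℕ → Prop,
    (∀ p : ℕ, p.Prime → ¬ p ∣ a → 1 ≤ nuB Q p) → (∀ p : ℕ, p.Prime → nuB Q p < p) →
    ∀ y : ℕ, 2 ≤ y → Vq Q y ≤ C / Real.log y := by
  obtain ⟨c, C, hc, hC, hV⟩ := Vz_bounds
  refine ⟨2 ^ a * C, by positivity, ?_⟩
  intro Q h1 hadm y hy
  have hfac : ∀ p ∈ pz y, (0 : ℝ) < 1 - 1 / (p : ℝ) ∧ (1 : ℝ) ≤ 2 * (1 - 1 / (p : ℝ)) := by
    intro p hp
    have h2 : (2 : ℝ) ≤ p := by exact_mod_cast (mem_pz.1 hp).2.two_le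
    have h3 : 1 / (p : ℝ) ≤ 1 / 2 := by
      apply one_div_le_one_div_of_le (by norm_num) h2
    constructor <;> linarith
  have hle : Vq Q y ≤ ∏ p ∈ pz y, ((1 - 1 / (p : ℝ)) * (if p ∣ a then 2 else 1)) := by
    unfold Vq
    apply Finset.prod_le_prod
    · intro p hp
      exact one_sub_nonneg Q p (mem_pz.1 hp).2
    · intro p hp
      have hpp := (mem_pz.1 hp).2
      have hp0 : (0 : ℝ) < p := by exact_mod_cast hpp.pos
      obtain ⟨h3, h4⟩ := hfac p hp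
      split_ifs with hd
      · have h5 : 0 ≤ (nuB Q p : ℝ) / p := by positivity
        linarith
      · have h5 : (1 : ℝ) ≤ nuB Q p := by exact_mod_cast h1 p hpp hd
        have h6 : 1 / (p : ℝ) ≤ (nuB Q p : ℝ) / p := div_le_div_of_nonneg_right h5 hp0.le
        linarith
  rw [Finset.prod_mul_distrib] at hle
  have h2 : ∏ p ∈ pz y, (if p ∣ a then (2 : ℝ) else 1) ≤ 2 ^ a := by
    rw [← Finset.prod_filter]
    rw [Finset.prod_const]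
    apply pow_le_pow_right₀ (by norm_num)
    have h3 : (pz y).filter (fun p => p ∣ a) ⊆ Icc 1 a := by
      intro p hp
      rw [mem_filter] at hp
      rw [mem_Icc]
      exact ⟨(mem_pz.1 hp.1).2.one_lt.le, Nat.le_of_dvd (Nat.pos_of_ne_zero ha) hp.2⟩
    have h4 := card_le_card h3
    rwa [Nat.card_Icc, Nat.add_sub_cancel] at h4
  have h3 : Vz y ≤ C / Real.log y := (hV y hy).2
  have h4 : 0 ≤ Vz y := by
    unfold Vz
    exact Finset.prod_nonneg fun p hp => (hfac p hp).1.le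
  have h5 : 0 ≤ Real.log y := Real.log_nonneg (by exact_mod_cast (by omega : 1 ≤ y))
  calc Vq Q y ≤ Vz y * ∏ p ∈ pz y, (if p ∣ a then (2 : ℝ) else 1) := hle
    _ ≤ (C / Real.log y) * 2 ^ a :=
        mul_le_mul h3 h2 (Finset.prod_nonneg fun p _ => by split_ifs <;> norm_num) (by positivity)
    _ = 2 ^ a * C / Real.log y := by ring

/-- a linear polynomial gives one class -/
lemma one_class {k : ℕ} (f : Fin k → ℤ[X]) (a b : ℕ) (i : Fin k) (hi : ∀ n : ℕ, (f i).eval (n : ℤ) = a * n + b)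
    (p : ℕ) (hp : p.Prime) (hpa : ¬ p ∣ a) : 1 ≤ nuB (Q f) p := by
  classical
  have : ∃ m : ℕ, m < p ∧ p ∣ a * m + b := by
    have hcop : Nat.Coprime a p := ((Nat.Prime.coprime_iff_not_dvd hp).2 hpa).symm
    haveI : Fact p.Prime := ⟨hp⟩
    have hne : (a : ZMod p) ≠ 0 := by
      rw [Ne, ZMod.natCast_eq_zero_iff]
      exact hpa
    refine ⟨((-(b : ZMod p)) / a).val, ZMod.val_lt _, ?_⟩
    rw [← ZMod.natCast_eq_zero_iff]
    push_cast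
    rw [ZMod.natCast_zmod_val]
    field_simp
    ring
  obtain ⟨m, hm, hd⟩ := this
  unfold nuB
  rw [Nat.one_le_iff_ne_zero, Ne, Finset.card_eq_zero, ← Ne, ← Finset.nonempty_iff_ne_empty]
  refine ⟨m, mem_filter.2 ⟨mem_range.2 hm, i, ?_⟩⟩
  rw [hi m]
  exact_mod_cast hd

open Classical in
/-- **The law after primes**, uniformly in the systems of polynomials with a linear polynomial. -/
theorem prime_law (a k D : ℕ) (ha : Squarefree a) (E δ' θ δ : ℝ) (hE : 0 < E) (hδ' : 0 < δ')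
    (hθ : 0 < θ) (hδ : 0 < δ) (hδ1 : δ ≤ 1) (x0 ε : ℝ) (hε : 0 < ε) (hε1 : ε ≤ 1) :
    ∃ r0 : ℕ, ∀ r : ℕ, r0 ≤ r → ∀ᶠ N : ℕ in atTop,
      ∀ (f : Fin k → ℤ[X]) (b : ℕ), US k D ((N : ℝ) ^ E) ((N : ℝ) ^ δ') f → Nat.Coprime a b →
      (∀ p n : ℕ, p.Prime → p ∣ a → ¬ Q f p n) →
      (∃ i, ∀ n : ℕ, (f i).eval (n : ℤ) = a * n + b) → (b : ℝ) ≤ (N : ℝ) ^ (θ / 4) →
      ∀ X : ℕ, (N : ℝ) ^ θ ≤ X → ∀ u Y : ℕ, δ * X ≤ Y → u + Y ≤ X →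
      |((Om a b (Q f) ⌊(N : ℝ) ^ (1 / (r : ℝ))⌋₊ u Y).card : ℝ) * Real.log X -
        Y * (Vq (Q f) ⌊(N : ℝ) ^ (1 / (r : ℝ))⌋₊ / Vz ⌊(N : ℝ) ^ (1 / (r : ℝ))⌋₊)| ≤
        ε * (Y * (Vq (Q f) ⌊(N : ℝ) ^ (1 / (r : ℝ))⌋₊ / Vz ⌊(N : ℝ) ^ (1 / (r : ℝ))⌋₊)) ∧
      ∀ T : ℕ, T * Vq (Q f) ⌊(N : ℝ) ^ (1 / (r : ℝ))⌋₊ ≤ x0 → ∀ B : Finset ℕ,
      |(((Om a b (Q f) ⌊(N : ℝ) ^ (1 / (r : ℝ))⌋₊ u Y).filter
          (fun n => Wc (Sf (Q f) ⌊(N : ℝ) ^ (1 / (r : ℝ))⌋₊) n T ∈ B)).card : ℝ) -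
        (Om a b (Q f) ⌊(N : ℝ) ^ (1 / (r : ℝ))⌋₊ u Y).card *
          ∑ j ∈ B, Real.exp (-(T * Vq (Q f) ⌊(N : ℝ) ^ (1 / (r : ℝ))⌋₊)) *
            (T * Vq (Q f) ⌊(N : ℝ) ^ (1 / (r : ℝ))⌋₊) ^ j / j.factorial| ≤
        ε * (Om a b (Q f) ⌊(N : ℝ) ^ (1 / (r : ℝ))⌋₊ u Y).card := by
  obtain ⟨r0, hr0, h⟩ := prime_full a k D ha E δ' θ δ hE hδ' hθ hδ hδ1 x0 ε hε hε1
  obtain ⟨C, hC, hV⟩ := V_one a ha.ne_zero
  refine ⟨r0, fun r hr => ?_⟩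
  have hr2 : 2 ≤ r := hr0.trans hr
  filter_upwards [h r hr (C * (2 * r)), level_ok r hr2] with N hN hlev
  intro f b hf hab hnon hbase hb X hX u Y hY huY
  obtain ⟨l1, l2, l3, l4, l5⟩ := hlev
  refine hN f b hf hab hnon hbase ?_ hb X hX u Y hY huY
  obtain ⟨i, hi⟩ := hbase
  have h1 := hV (Q f) (fun p hp hpa => one_class f a b i hi p hp hpa) (us_adm hf)
    ⌊(N : ℝ) ^ (1 / (r : ℝ))⌋₊ (by omega)
  refine h1.trans ?_
  have hr0' : (0 : ℝ) < r := by exact_mod_cast (by omega : 0 < r)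
  rw [div_le_div_iff₀ (by linarith) (by linarith)]
  rw [div_le_iff₀ (by positivity)] at l2
  nlinarith

end Pool.Agent.Q26.BH
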